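import Pool.Agent.H5.BP.Stm

/-!
Module C of the project on indestructible Blaschke products: the good radius.

`parseval_fin` is the lemma of the library file `Helper59K9/CY/Neg.lean`.
-/

set_option autoImplicit false

open MeasureTheory Metric Filter Topology ComplexConjugate

namespace Pool.Agent.H81.BP

open Finset (range)

/-- mean value property, real part -/
lemma avg_re (Q : ℂ → ℂ) (r : ℝ) (hc : ContinuousOn Q (sphere 0 |r|))
    (hQ : DiffContOnCl ℂ Q (ball 0 |r|)) :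
    Real.circleAverage (fun z => (Q z).re) 0 r = (Q 0).re := by
  have hi : CircleIntegrable Q 0 r := hc.circleIntegrable'
  have h1 := hQ.circleAverage
  have h2 := Complex.reCLM.circleAverage_comp_comm hi
  rw [h1] at h2
  exact h2

lemma circ_int_cont (f : ℂ → ℝ) (hf : Continuous f) (r : ℝ) : CircleIntegrable f 0 r :=
  ContinuousOn.circleIntegrable' hf.continuousOn

lemma avg_add3 (f g : ℂ → ℝ) (hf : Continuous f) (hg : Continuous g) (c r : ℝ) :
    Real.circleAverage (fun z => f z + g z + c) 0 r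
      = Real.circleAverage f 0 r + Real.circleAverage g 0 r + c := by
  have h1 := Real.circleAverage_fun_add (circ_int_cont _ (hf.add hg) r)
    (circ_int_cont (fun _ => c) continuous_const r)
  have h2 := Real.circleAverage_fun_add (circ_int_cont _ hf r) (circ_int_cont _ hg r)
  rw [Real.circleAverage_const] at h1
  simp only [Pi.add_apply] at h1 h2 ⊢
  rw [h1, ← h2]
  rfl

lemma parseval_fin (p : ℕ → ℂ) (r : ℝ) (N : ℕ) :
    Real.circleAverage (fun z => ‖∑ n ∈ range N, p n * z ^ n‖ ^ 2) 0 r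
      = ∑ n ∈ range N, ‖p n‖ ^ 2 * (r ^ 2) ^ n := by
  induction N with
  | zero =>
    simp only [Finset.range_zero, Finset.sum_empty, norm_zero]
    rw [Real.circleAverage_const]
    simp
  | succ N ih =>
    rw [Finset.sum_range_succ (n := N) (f := fun n => ‖p n‖ ^ 2 * (r ^ 2) ^ n), ← ih]
    set Q : ℂ → ℂ := fun z => p N * ∑ n ∈ range N, (starRingEnd ℂ) (p n) * ((r : ℂ) ^ 2) ^ n * z ^ (N - n) with hQ
    have hQd : Differentiable ℂ Q := by
      rw [hQ]
      fun_prop
    have hQ0 : Q 0 = 0 := by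
      rw [hQ]
      simp only
      rw [Finset.sum_eq_zero, mul_zero]
      intro n hn
      have : N - n ≠ 0 := by
        have := Finset.mem_range.mp hn
        omega
      rw [zero_pow this, mul_zero]
    have havg : Real.circleAverage (fun z => (Q z).re) 0 r = 0 := by
      rw [avg_re Q r hQd.continuous.continuousOn hQd.diffContOnCl, hQ0]
      simp
    have hpt : Set.EqOn (fun z : ℂ => ‖∑ n ∈ range (N + 1), p n * z ^ n‖ ^ 2)
        (fun z => (‖∑ n ∈ range N, p n * z ^ n‖ ^ 2 + 2 * (Q z).re) + ‖p N‖ ^ 2 * (r ^ 2) ^ N)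
        (sphere 0 |r|) := by
      intro z hz
      have hz1 : ‖z‖ = |r| := by simpa using hz
      have hz2 : (starRingEnd ℂ) z * z = (r : ℂ) ^ 2 := by
        rw [Complex.conj_mul', hz1]
        rw [← Complex.ofReal_pow, sq_abs, Complex.ofReal_pow]
      simp only
      rw [Finset.sum_range_succ]
      have h1 : (starRingEnd ℂ) (∑ n ∈ range N, p n * z ^ n) * (p N * z ^ N) = Q z := by
        rw [hQ]
        simp only
        rw [map_sum, Finset.sum_mul, Finset.mul_sum]
        apply Finset.sum_congr rfl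
        intro n hn
        have hn' : n < N := Finset.mem_range.mp hn
        rw [map_mul, map_pow, ← hz2, mul_pow]
        have : z ^ N = z ^ n * z ^ (N - n) := by
          rw [← pow_add]
          congr 1
          omega
        rw [this]
        ring
      have h2 : ∀ x y : ℂ, ‖x + y‖ ^ 2 = ‖x‖ ^ 2 + 2 * ((starRingEnd ℂ) x * y).re + ‖y‖ ^ 2 := by
        intro x y
        simp only [← Complex.normSq_eq_norm_sq, Complex.normSq_apply, Complex.mul_re,
          Complex.conj_re, Complex.conj_im, Complex.add_re, Complex.add_im]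
        ring
      rw [h2, h1, norm_mul, norm_pow, hz1, mul_pow, ← pow_mul, mul_comm N 2, pow_mul, sq_abs]
    rw [Real.circleAverage_congr_sphere hpt]
    have hc1 : Continuous (fun z : ℂ => ‖∑ n ∈ range N, p n * z ^ n‖ ^ 2) := by fun_prop
    have hc2 : Continuous (fun z : ℂ => 2 * (Q z).re) := by
      have := hQd.continuous
      fun_prop
    rw [avg_add3 _ _ hc1 hc2]
    have : Real.circleAverage (fun z : ℂ => 2 * (Q z).re) 0 r = 0 := by
      have h := Real.circleAverage_fun_smul (a := (2 : ℝ)) (f := fun z : ℂ => (Q z).re) (c := 0) (R := r)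
      simp only [smul_eq_mul] at h
      rw [h, havg]
      simp
    rw [this]
    ring

/-- Parseval for a power series on a circle. -/
lemma parseval (u : ℂ → ℂ) (a : ℕ → ℂ) (hu : ∀ z : ℂ, ‖z‖ < 1 → HasSum (fun n => a n * z ^ n) (u z))
    (r : ℝ) (h0 : 0 ≤ r) (h1 : r < 1) :
    HasSum (fun n => ‖a n‖ ^ 2 * (r ^ 2) ^ n) (Real.circleAverage (fun z => ‖u z‖ ^ 2) 0 r) := by
  have hmem : ∀ θ : ℝ, ‖circleMap 0 r θ‖ = r := by
    intro θ
    rw [norm_circleMap_zero, abs_of_nonneg h0]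
  have hs : Summable fun n => ‖a n‖ * r ^ n := by
    have h2 := (hu r (by rw [Complex.norm_real, Real.norm_of_nonneg h0]; exact h1)).summable.norm
    refine h2.congr fun n => ?_
    rw [norm_mul, norm_pow, Complex.norm_real, Real.norm_of_nonneg h0]
  have key : Tendsto (fun N : ℕ => Real.circleAverage (fun z => ‖∑ n ∈ range N, a n * z ^ n‖ ^ 2) 0 r)
      atTop (𝓝 (Real.circleAverage (fun z => ‖u z‖ ^ 2) 0 r)) := by
    unfold Real.circleAverage
    apply Tendsto.const_smul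
    apply intervalIntegral.tendsto_integral_filter_of_dominated_convergence
      (fun _ => (∑' n, ‖a n‖ * r ^ n) ^ 2)
    · filter_upwards with N
      apply Continuous.aestronglyMeasurable
      fun_prop
    · filter_upwards with N
      filter_upwards with θ _
      rw [Real.norm_of_nonneg (by positivity)]
      apply pow_le_pow_left₀ (norm_nonneg _)
      refine (norm_sum_le _ _).trans ?_
      refine le_trans (le_of_eq ?_) (hs.sum_le_tsum (range N) fun n _ => by positivity)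
      refine Finset.sum_congr rfl fun n _ => ?_
      rw [norm_mul, norm_pow, hmem]
    · exact intervalIntegrable_const
    · filter_upwards with θ _
      have hs := hu (circleMap 0 r θ) (by rw [hmem]; exact h1)
      exact (hs.tendsto_sum_nat.norm).pow 2
  rw [hasSum_iff_tendsto_nat_of_nonneg (fun n => by positivity)]
  simpa only [parseval_fin] using key

/-- The termwise inequality. -/
lemma term_le (s : ℝ) (h0 : 0 < s) (h1 : s < 1) (n : ℕ) :
    (1 - s ^ 2) ^ 2 * (((n : ℝ) + 1) ^ 2 * (s ^ 2) ^ n) ≤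
      16 * ((((1 + s) / 2) ^ 2) ^ (n + 1) - (s ^ 2) ^ (n + 1)) := by
  set h : ℝ := (1 - s) / (2 * s) with hh
  have hh0 : 0 ≤ h := by rw [hh]; apply div_nonneg <;> linarith
  have e1 : (1 + s) / 2 = s * (1 + h) := by rw [hh]; field_simp; ring
  have h2 : 1 + ((n + 1 : ℕ) : ℝ) * h ≤ (1 + h) ^ (n + 1) :=
    one_add_mul_le_pow (by linarith) (n + 1)
  have h3 : 1 + (((n : ℝ) + 1) * h) ^ 2 ≤ ((1 + h) ^ 2) ^ (n + 1) := by
    rw [← pow_mul, mul_comm 2 (n + 1), pow_mul]
    push_cast at h2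
    have h4 : 0 ≤ ((n : ℝ) + 1) * h := by positivity
    nlinarith
  have e2 : (((1 + s) / 2) ^ 2) ^ (n + 1) = (s ^ 2) ^ (n + 1) * ((1 + h) ^ 2) ^ (n + 1) := by
    rw [e1, mul_pow, mul_pow]
  rw [e2]
  have h5 : 0 < (s ^ 2) ^ (n + 1) := by positivity
  have h6 : (s ^ 2) ^ (n + 1) * (((n : ℝ) + 1) * h) ^ 2 ≤
      (s ^ 2) ^ (n + 1) * ((1 + h) ^ 2) ^ (n + 1) - (s ^ 2) ^ (n + 1) := by
    nlinarith
  refine le_trans ?_ (mul_le_mul_of_nonneg_left h6 (by norm_num))
  have e3 : (s ^ 2) ^ (n + 1) * (((n : ℝ) + 1) * h) ^ 2 =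
      (s ^ 2) ^ n * ((n : ℝ) + 1) ^ 2 * ((1 - s) ^ 2 / 4) := by
    rw [hh, pow_succ]
    field_simp
    ring
  rw [e3]
  have h7 : 0 ≤ (s ^ 2) ^ n * ((n : ℝ) + 1) ^ 2 := by positivity
  have h8 : (1 - s ^ 2) ^ 2 ≤ 4 * (1 - s) ^ 2 := by
    have : (1 - s ^ 2) = (1 - s) * (1 + s) := by ring
    rw [this, mul_pow, mul_comm 4]
    exact mul_le_mul_of_nonneg_left (by nlinarith) (sq_nonneg _)
  nlinarith

/-- One radius. -/
lemma avg_deriv_le (f : ℂ → ℂ) (hf : DifferentiableOn ℂ f (ball 0 1)) (s : ℝ) (h0 : 0 < s)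
    (h1 : s < 1) :
    Real.circleAverage (fun z => ((1 - s ^ 2) * ‖deriv f z‖) ^ 2) 0 s ≤
      16 * (Real.circleAverage (fun z => ‖f z‖ ^ 2) 0 ((1 + s) / 2) -
        Real.circleAverage (fun z => ‖f z‖ ^ 2) 0 s) := by
  set a : ℕ → ℂ := fun n => ((n.factorial : ℂ))⁻¹ * iteratedDeriv n f 0 with ha
  have hfa : ∀ z : ℂ, ‖z‖ < 1 → HasSum (fun n => a n * z ^ n) (f z) := by
    intro z hz
    have h := Complex.hasSum_taylorSeries_on_ball hf (z := z) (by simpa using hz)
    refine h.congr_fun ?_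
    intro n
    simp only [ha, smul_eq_mul, sub_zero]
    ring
  have hdf : DifferentiableOn ℂ (deriv f) (ball 0 1) := hf.deriv isOpen_ball
  have hfb : ∀ z : ℂ, ‖z‖ < 1 →
      HasSum (fun n : ℕ => (((n : ℂ) + 1) * a (n + 1)) * z ^ n) (deriv f z) := by
    intro z hz
    have h := Complex.hasSum_taylorSeries_on_ball hdf (z := z) (by simpa using hz)
    refine h.congr_fun ?_
    intro n
    simp only [ha, smul_eq_mul, sub_zero]
    rw [← iteratedDeriv_succ', Nat.factorial_succ]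
    push_cast
    have h2 : ((n.factorial : ℂ)) ≠ 0 := by exact_mod_cast n.factorial_ne_zero
    have h3 : ((n : ℂ) + 1) ≠ 0 := by exact_mod_cast n.succ_ne_zero
    field_simp
  have p1 := parseval f a hfa s h0.le h1
  have p2 := parseval f a hfa ((1 + s) / 2) (by linarith) (by linarith)
  have p3 := parseval (deriv f) _ hfb s h0.le h1
  have e1 : Real.circleAverage (fun z => ((1 - s ^ 2) * ‖deriv f z‖) ^ 2) 0 s =
      (1 - s ^ 2) ^ 2 * Real.circleAverage (fun z => ‖deriv f z‖ ^ 2) 0 s := by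
    have h := Real.circleAverage_fun_smul (a := ((1 - s ^ 2) ^ 2 : ℝ))
      (f := fun z : ℂ => ‖deriv f z‖ ^ 2) (c := 0) (R := s)
    simp only [smul_eq_mul] at h
    rw [← h]
    congr 1
    funext z
    ring
  rw [e1]
  have q1 := (p2.sub p1)
  have q2 : HasSum (fun n => ‖a (n + 1)‖ ^ 2 * (((1 + s) / 2) ^ 2) ^ (n + 1) -
      ‖a (n + 1)‖ ^ 2 * (s ^ 2) ^ (n + 1)) (Real.circleAverage (fun z => ‖f z‖ ^ 2) 0 ((1 + s) / 2) -
        Real.circleAverage (fun z => ‖f z‖ ^ 2) 0 s) := by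
    have := (hasSum_nat_add_iff' 1).2 q1
    simpa using this
  refine hasSum_le (fun n => ?_) (p3.mul_left ((1 - s ^ 2) ^ 2)) (q2.mul_left 16)
  have h := term_le s h0 h1 n
  have e2 : ‖((n : ℂ) + 1) * a (n + 1)‖ ^ 2 = ((n : ℝ) + 1) ^ 2 * ‖a (n + 1)‖ ^ 2 := by
    rw [norm_mul, mul_pow]
    congr 2
    rw [show ((n : ℂ) + 1) = (((n : ℝ) + 1 : ℝ) : ℂ) by push_cast; rfl, Complex.norm_real,
      Real.norm_of_nonneg (by positivity)]
  rw [e2]
  have h2 : 0 ≤ ‖a (n + 1)‖ ^ 2 := by positivity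
  calc (1 - s ^ 2) ^ 2 * (((n : ℝ) + 1) ^ 2 * ‖a (n + 1)‖ ^ 2 * (s ^ 2) ^ n)
      = ‖a (n + 1)‖ ^ 2 * ((1 - s ^ 2) ^ 2 * (((n : ℝ) + 1) ^ 2 * (s ^ 2) ^ n)) := by ring
    _ ≤ ‖a (n + 1)‖ ^ 2 * (16 * ((((1 + s) / 2) ^ 2) ^ (n + 1) - (s ^ 2) ^ (n + 1))) :=
        mul_le_mul_of_nonneg_left h h2
    _ = _ := by ring

/-- the radii -/
noncomputable def rr (j : ℕ) : ℝ := 1 - (1 / 2) ^ (j + 1)

lemma rr_half (j : ℕ) : 1 / 2 ≤ rr j := by
  unfold rr
  have : ((1 : ℝ) / 2) ^ (j + 1) ≤ (1 / 2) ^ 1 :=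
    pow_le_pow_of_le_one (by norm_num) (by norm_num) (by omega)
  linarith

lemma rr_lt (j : ℕ) : rr j < 1 := by
  unfold rr
  have : (0 : ℝ) < (1 / 2) ^ (j + 1) := by positivity
  linarith

lemma rr_mono {j k : ℕ} (h : j ≤ k) : rr j ≤ rr k := by
  unfold rr
  have : ((1 : ℝ) / 2) ^ (k + 1) ≤ (1 / 2) ^ (j + 1) :=
    pow_le_pow_of_le_one (by norm_num) (by norm_num) (by omega)
  linarith

lemma rr_succ (j : ℕ) : (1 + rr j) / 2 = rr (j + 1) := by
  unfold rr
  rw [pow_succ ((1 : ℝ) / 2) (j + 1)]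
  ring

/-- Module C: a good radius. -/
theorem t_rad : Pool.Agent.H5.BP.S_rad := by
  intro η hη
  obtain ⟨J, hJ⟩ := exists_nat_gt (16 / η)
  refine ⟨rr J, rr_half J, rr_lt J, fun f hf hb => ?_⟩
  by_contra hcon
  push Not at hcon
  have h1 : ∀ j ∈ range J, η < 16 * (Real.circleAverage (fun z => ‖f z‖ ^ 2) 0 (rr (j + 1)) -
      Real.circleAverage (fun z => ‖f z‖ ^ 2) 0 (rr j)) := by
    intro j hj
    have hj' : j ≤ J := (Finset.mem_range.1 hj).le
    have h2 := hcon (rr j) (rr_half j) (rr_mono hj')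
    have h3 := avg_deriv_le f hf (rr j) (by linarith [rr_half j]) (rr_lt j)
    rw [rr_succ] at h3
    exact h2.trans_le h3
  have h2 : (J : ℝ) * η ≤ 16 * (Real.circleAverage (fun z => ‖f z‖ ^ 2) 0 (rr J) -
      Real.circleAverage (fun z => ‖f z‖ ^ 2) 0 (rr 0)) := by
    have h3 := Finset.sum_le_sum fun j hj => (h1 j hj).le
    rw [Finset.sum_const, Finset.card_range, nsmul_eq_mul, ← Finset.mul_sum,
      Finset.sum_range_sub (fun j => Real.circleAverage (fun z => ‖f z‖ ^ 2) 0 (rr j))] at h3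
    exact h3
  have hJ0 : 0 < rr J := by linarith [rr_half J]
  have hint : ∀ r : ℝ, 0 < r → r < 1 → CircleIntegrable (fun z => ‖f z‖ ^ 2) 0 r := by
    intro r hr0 hr1
    apply ContinuousOn.circleIntegrable hr0.le
    refine ContinuousOn.pow (ContinuousOn.norm (hf.continuousOn.mono ?_)) 2
    intro z hz
    have : ‖z‖ = r := by simpa using hz
    simpa [this] using hr1
  have h4 : Real.circleAverage (fun z => ‖f z‖ ^ 2) 0 (rr J) ≤ 1 := by
    refine Real.circleAverage_mono_on_of_le_circle (hint _ hJ0 (rr_lt J)) ?_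
    intro z hz
    have hz1 : ‖z‖ = rr J := by
      have : ‖z‖ = |rr J| := by simpa using hz
      rwa [abs_of_pos hJ0] at this
    have := hb z (by rw [hz1]; exact rr_lt J)
    have h5 := norm_nonneg (f z)
    nlinarith
  have h5 : 0 ≤ Real.circleAverage (fun z => ‖f z‖ ^ 2) 0 (rr 0) := by
    unfold Real.circleAverage
    have : 0 ≤ ∫ θ in (0 : ℝ)..2 * Real.pi, ‖f (circleMap 0 (rr 0) θ)‖ ^ 2 :=
      intervalIntegral.integral_nonneg (by positivity) fun θ _ => by positivity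
    rw [smul_eq_mul]
    positivity
  have h6 : 16 < (J : ℝ) * η := by
    rwa [div_lt_iff₀ hη] at hJ
  linarith

end Pool.Agent.H81.BP
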