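import Pool.Agent.H5.BP.Basic

/-!
Module E of the project on indestructible Blaschke products: perturbation to simple critical points
with distinct critical values.

`P` with `P ζ = 1`, `q = (1 - P) / (ζ - z)`, `Q_s = (P + s z q) / (1 + s ζ q)`. The critical points of
`Q_s` in the disk are the solutions of `N z = - s ζ` with `N = P' / q²`, and there
`Q_s = 1 - (1 + s) / V` with `V = q' / q²`; and `V' = - N' / (ζ - z)`.
-/

set_option autoImplicit false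

open Metric Filter Topology Set

namespace Pool.Agent.H81.BP

open Pool.Agent.H5.BP

/-- Local comparison of two functions with `V' = c N'`. -/
lemma local_lemma {N V c : ℂ → ℂ} {p : ℂ} (hN : AnalyticAt ℂ N p) (hV : AnalyticAt ℂ V p)
    (hc : AnalyticAt ℂ c p) (hNp : N p = 0) (hN0 : ¬ ∀ᶠ z in 𝓝 p, N z = 0)
    (hd : ∀ᶠ z in 𝓝 p, deriv V z = c z * deriv N z) (hc' : deriv c p ≠ 0) :
    ∃ Λ : ℂ → ℂ, AnalyticAt ℂ Λ p ∧ Λ p = c p ∧ deriv Λ p ≠ 0 ∧
      ∀ᶠ z in 𝓝 p, V z - V p = Λ z * N z := by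
  have hordN : analyticOrderAt N p ≠ ⊤ := by rwa [Ne, analyticOrderAt_eq_top]
  obtain ⟨n, hn⟩ := ENat.ne_top_iff_exists.1 hordN
  obtain ⟨g, hg, hgp, hgN⟩ := (hN.analyticOrderAt_eq_natCast).1 hn.symm
  set W : ℂ → ℂ := fun z => V z - V p - c p * N z with hW
  have hWan : AnalyticAt ℂ W p := by fun_prop
  have hWp : W p = 0 := by simp [hW, hNp]
  have hWd : deriv W =ᶠ[𝓝 p] (fun z => c z - c p) * deriv N := by
    filter_upwards [hd, hN.eventually_analyticAt, hV.eventually_analyticAt] with z h1 h2 h3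
    have h4 : deriv W z = deriv V z - c p * deriv N z := by
      have h5 : HasDerivAt W (deriv V z - c p * deriv N z) z :=
        (h3.differentiableAt.hasDerivAt.sub_const _).sub
          (h2.differentiableAt.hasDerivAt.const_mul _)
      exact h5.deriv
    rw [h4, h1]
    simp only [Pi.mul_apply]
    ring
  have ord1 : analyticOrderAt (fun z => c z - c p) p = 1 :=
    hc.analyticOrderAt_sub_eq_one_of_deriv_ne_zero hc'
  have ord2 : analyticOrderAt (deriv N) p + 1 = n := by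
    have := hN.analyticOrderAt_deriv_add_one
    simp only [hNp, sub_zero] at this
    rw [this, ← hn]
  have ord3 : analyticOrderAt (deriv W) p = n := by
    rw [analyticOrderAt_congr hWd, analyticOrderAt_mul (by fun_prop) hN.deriv, ord1, add_comm, ord2]
  have ord4 : analyticOrderAt W p = (n + 1 : ℕ) := by
    have := hWan.analyticOrderAt_deriv_add_one
    simp only [hWp, sub_zero] at this
    rw [← this, ord3]
    push_cast
    rfl
  obtain ⟨ω, hω, hωp, hωW⟩ := (hWan.analyticOrderAt_eq_natCast).1 ord4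
  have hq : AnalyticAt ℂ (fun z => ω z / g z) p := hω.div hg hgp
  refine ⟨fun z => c p + (z - p) * (ω z / g z), by fun_prop, by simp, ?_, ?_⟩
  · have h1 : HasDerivAt (fun z => c p + (z - p) * (ω z / g z))
        (1 * (ω p / g p) + (p - p) * deriv (fun z => ω z / g z) p) p :=
      (((hasDerivAt_id p).sub_const p).mul hq.differentiableAt.hasDerivAt).const_add _
    rw [h1.deriv]
    simp only [one_mul, sub_self, zero_mul, add_zero]
    exact div_ne_zero hωp hgp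
  · filter_upwards [hgN, hωW, hg.continuousAt.eventually_ne hgp] with z h1 h2 h3
    have h4 : V z - V p = c p * N z + W z := by simp only [hW]; ring
    rw [h4, h2, h1, smul_eq_mul, smul_eq_mul]
    field_simp
    ring

lemma inj_near {Λ : ℂ → ℂ} {p : ℂ} (hΛ : AnalyticAt ℂ Λ p) (h' : deriv Λ p ≠ 0) :
    ∃ u ∈ 𝓝 p, ∀ x ∈ u, ∀ y ∈ u, Λ x = Λ y → x = y := by
  have h1 := (hΛ.hasStrictDerivAt.hasStrictFDerivAt_equiv h').eventually_left_inverse
  refine ⟨_, h1, fun x hx y hy hxy => ?_⟩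
  have hx' := hx
  have hy' := hy
  simp only [Set.mem_ofPred_eq] at hx' hy'
  rw [← hx', hxy, hy']

/-- The derivative of a finite Blaschke product does not vanish on the circle. -/
lemma deriv_ne_circle {P : ℂ → ℂ} (hP : FB P) {z : ℂ} (hz : ‖z‖ = 1) : deriv P z ≠ 0 := by
  intro h0
  have h1 : HasDerivAt P 0 z := by
    rw [← h0]; exact (hP.differentiableAt hz.le).hasDerivAt
  have h2 := h1.isLittleO
  simp only [smul_zero, sub_zero] at h2
  have h3 := h2.bound (show (0 : ℝ) < 1 / 2 by norm_num)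
  obtain ⟨δ, hδ, h4⟩ := Metric.eventually_nhds_iff.1 h3
  set r : ℝ := 1 - min (δ / 2) (1 / 2) with hr
  have hr1 : r < 1 := by
    have : 0 < min (δ / 2) (1 / 2 : ℝ) := by positivity
    linarith
  have hr0 : 0 < r := by
    have := min_le_right (δ / 2) (1 / 2 : ℝ)
    linarith
  have hrδ : 1 - r < δ := by
    have := min_le_left (δ / 2) (1 / 2 : ℝ)
    linarith
  have h5 : ‖(r : ℂ) * z‖ = r := by
    rw [norm_mul, hz, mul_one, Complex.norm_real, Real.norm_of_nonneg hr0.le]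
  have h6 : ‖(r : ℂ) * z - z‖ = 1 - r := by
    have : (r : ℂ) * z - z = ((r - 1 : ℝ) : ℂ) * z := by push_cast; ring
    rw [this, norm_mul, hz, mul_one, Complex.norm_real, Real.norm_of_nonpos (by linarith)]
    ring
  have h7 := h4 (y := (r : ℂ) * z) (by rw [dist_eq_norm, h6]; exact hrδ)
  rw [h6] at h7
  have h8 : ‖P ((r : ℂ) * z)‖ ≤ r := by
    have := hP.norm_le (z := (r : ℂ) * z) (by rw [h5]; exact hr1)
    rwa [h5] at this
  have h9 := norm_sub_norm_le (P z) (P ((r : ℂ) * z))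
  rw [hP.uni z hz, norm_sub_rev] at h9
  linarith

noncomputable def qq (P : ℂ → ℂ) (ζ : ℂ) : ℂ → ℂ := dslope P ζ

noncomputable def QQ (P : ℂ → ℂ) (ζ : ℂ) (s : ℝ) (z : ℂ) : ℂ :=
  1 - (1 + s) * (ζ - z) * qq P ζ z / (1 + s * ζ * qq P ζ z)

noncomputable def NN (P : ℂ → ℂ) (ζ : ℂ) (z : ℂ) : ℂ := deriv P z / (qq P ζ z) ^ 2

noncomputable def VV (P : ℂ → ℂ) (ζ : ℂ) (z : ℂ) : ℂ := deriv (qq P ζ) z / (qq P ζ z) ^ 2

section

variable {P : ℂ → ℂ} {ζ : ℂ}

lemma qq_an (hP : FB P) (hζ : ‖ζ‖ = 1) : AnalyticOnNhd ℂ (qq P ζ) (closedBall 0 1) := by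
  have hU : IsOpen {z | AnalyticAt ℂ P z} := isOpen_analyticAt ℂ P
  have hsub : closedBall (0 : ℂ) 1 ⊆ {z | AnalyticAt ℂ P z} := fun z hz => hP.an z hz
  have h1 : DifferentiableOn ℂ P {z | AnalyticAt ℂ P z} := fun z hz =>
    (AnalyticAt.differentiableAt hz).differentiableWithinAt
  have h2 : {z | AnalyticAt ℂ P z} ∈ 𝓝 ζ := hU.mem_nhds (hsub (by simpa using hζ.le))
  have h3 := (Complex.differentiableOn_dslope h2).2 h1
  exact fun z hz => (h3.analyticOnNhd hU) z (hsub hz)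

lemma qq_eq (h1 : P ζ = 1) (z : ℂ) : P z = 1 - (ζ - z) * qq P ζ z := by
  have h := sub_smul_dslope P ζ z
  rw [smul_eq_mul, h1] at h
  unfold qq
  linear_combination -h

lemma qq_ne (hP : FB P) (h1 : P ζ = 1) {z : ℂ} (hz : ‖z‖ < 1) : qq P ζ z ≠ 0 := by
  intro h
  have h2 := qq_eq h1 z
  rw [h, mul_zero, sub_zero] at h2
  have h3 := hP.norm_lt_one hz
  rw [h2, norm_one] at h3
  exact lt_irrefl _ h3

lemma exists_bound (hP : FB P) (hζ : ‖ζ‖ = 1) : ∃ M : ℝ, 0 < M ∧ ∀ z, ‖z‖ ≤ 1 → ‖qq P ζ z‖ ≤ M := by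
  obtain ⟨M, hM⟩ := (isCompact_closedBall (0 : ℂ) 1).exists_bound_of_continuousOn
    (qq_an hP hζ).continuousOn
  refine ⟨max M 1, by positivity, fun z hz => (hM z (by simpa using hz)).trans (le_max_left _ _)⟩

lemma den_ne {M s : ℝ} (hs : 0 ≤ s) (hsM : s * M < 1) (hζ : ‖ζ‖ = 1) {z : ℂ}
    (hM : ‖qq P ζ z‖ ≤ M) : 1 + s * ζ * qq P ζ z ≠ 0 := by
  intro h
  have h1 : (s : ℂ) * ζ * qq P ζ z = -1 := by linear_combination h
  have h2 : ‖(s : ℂ) * ζ * qq P ζ z‖ = 1 := by rw [h1]; simp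
  rw [norm_mul, norm_mul, hζ, Complex.norm_real, Real.norm_of_nonneg hs, mul_one] at h2
  nlinarith [norm_nonneg (qq P ζ z)]

lemma FB_QQ (hP : FB P) (hζ : ‖ζ‖ = 1) (h1 : P ζ = 1) {M s : ℝ} (hs : 0 ≤ s) (hsM : s * M < 1)
    (hM : ∀ z, ‖z‖ ≤ 1 → ‖qq P ζ z‖ ≤ M) : FB (QQ P ζ s) where
  an := by
    intro z hz
    have hz' : ‖z‖ ≤ 1 := by simpa using hz
    have hq := qq_an hP hζ z hz
    have hne := den_ne hs hsM hζ (hM z hz')
    unfold QQ
    exact analyticAt_const.sub (((analyticAt_const.mul (analyticAt_const.sub analyticAt_id)).mul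
      hq).div (analyticAt_const.add (analyticAt_const.mul hq)) hne)
  uni := by
    intro z hz
    have hne := den_ne hs hsM hζ (hM z hz.le)
    have hP1 := qq_eq h1 z
    have key : QQ P ζ s z = (P z + s * z * qq P ζ z) / (1 + s * ζ * qq P ζ z) := by
      unfold QQ
      rw [hP1]
      field_simp
      ring
    by_cases hzζ : z = ζ
    · rw [key, hzζ, h1]
      have hne' := den_ne hs hsM hζ (hM ζ hζ.le)
      rw [div_self hne', norm_one]
    have hpz := hP.uni z hz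
    have hp0 : P z ≠ 0 := by
      intro h; rw [h, norm_zero] at hpz; exact zero_ne_one hpz
    have hz0 : z ≠ 0 := by
      rintro rfl; rw [norm_zero] at hz; exact zero_ne_one hz
    have hζ0 : ζ ≠ 0 := by
      rintro rfl; rw [norm_zero] at hζ; exact zero_ne_one hζ
    have hsub : ζ - z ≠ 0 := sub_ne_zero.2 (Ne.symm hzζ)
    have hq : qq P ζ z = (1 - P z) / (ζ - z) := by
      rw [eq_div_iff hsub]
      linear_combination hP1
    have hconj : P z + s * z * qq P ζ z =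
        P z * (starRingEnd ℂ) (1 + s * ζ * qq P ζ z) := by
      rw [hq]
      simp only [map_add, map_mul, map_one, map_div₀, map_sub, Complex.conj_ofReal]
      rw [← Complex.inv_eq_conj hz, ← Complex.inv_eq_conj hζ, ← Complex.inv_eq_conj hpz]
      have h3 : ζ⁻¹ - z⁻¹ ≠ 0 := by
        intro h
        apply hzζ
        have := sub_eq_zero.1 h
        exact (inv_injective this).symm
      have h4 : ζ⁻¹ - z⁻¹ = (z - ζ) / (ζ * z) := by field_simp
      have h5 : z - ζ ≠ 0 := sub_ne_zero.2 hzζ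
      rw [h4]
      field_simp
      ring
    rw [key, norm_div, hconj, norm_mul, hpz, one_mul, RCLike.norm_conj, div_self]
    exact norm_ne_zero_iff.2 hne
  zero := by
    have hne := den_ne hs hsM hζ (hM 0 (by simp))
    have hP1 := qq_eq h1 0
    rw [hP.zero] at hP1
    have h3 : ζ * qq P ζ 0 = 1 := by linear_combination hP1
    have e1 : (1 + (s : ℂ)) * (ζ - 0) * qq P ζ 0 = 1 + s := by linear_combination (1 + (s : ℂ)) * h3
    have e2 : 1 + (s : ℂ) * ζ * qq P ζ 0 = 1 + s := by linear_combination (s : ℂ) * h3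
    unfold QQ
    rw [e2] at hne
    rw [e1, e2, div_self hne, sub_self]

lemma close_QQ (hζ : ‖ζ‖ = 1) (h1 : P ζ = 1) {M s : ℝ} (hs : 0 ≤ s) (hsM : s * M ≤ 1 / 2)
    (hM : ∀ z, ‖z‖ ≤ 1 → ‖qq P ζ z‖ ≤ M) {z : ℂ} (hz : ‖z‖ ≤ 1) :
    ‖QQ P ζ s z - P z‖ ≤ s * (4 * M * (M + 1)) := by
  have hM0 : 0 ≤ M := (norm_nonneg _).trans (hM z hz)
  have hne := den_ne hs (by linarith) hζ (hM z hz)
  have hP1 := qq_eq h1 z
  have key : QQ P ζ s z - P z =
      s * (ζ - z) * qq P ζ z * (ζ * qq P ζ z - 1) / (1 + s * ζ * qq P ζ z) := by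
    unfold QQ
    rw [hP1]
    field_simp
    ring
  rw [key, norm_div, norm_mul, norm_mul, norm_mul, Complex.norm_real, Real.norm_of_nonneg hs]
  have h2 : ‖ζ - z‖ ≤ 2 := by
    calc ‖ζ - z‖ ≤ ‖ζ‖ + ‖z‖ := norm_sub_le _ _
      _ ≤ 2 := by rw [hζ]; linarith
  have h3 : ‖ζ * qq P ζ z - 1‖ ≤ M + 1 := by
    refine (norm_sub_le _ _).trans ?_
    rw [norm_mul, hζ, one_mul, norm_one]
    linarith [hM z hz]
  have h4 : 1 / 2 ≤ ‖1 + s * ζ * qq P ζ z‖ := by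
    have h5 : ‖(s : ℂ) * ζ * qq P ζ z‖ ≤ 1 / 2 := by
      rw [norm_mul, norm_mul, hζ, Complex.norm_real, Real.norm_of_nonneg hs, mul_one]
      exact (mul_le_mul_of_nonneg_left (hM z hz) hs).trans hsM
    have h6 := norm_sub_norm_le (1 : ℂ) (-((s : ℂ) * ζ * qq P ζ z))
    rw [norm_one, norm_neg, sub_neg_eq_add] at h6
    linarith
  rw [div_le_iff₀ (by linarith)]
  have h5 := hM z hz
  calc s * ‖ζ - z‖ * ‖qq P ζ z‖ * ‖ζ * qq P ζ z - 1‖ ≤ s * 2 * M * (M + 1) := by gcongr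
    _ = s * (4 * M * (M + 1)) * (1 / 2) := by ring
    _ ≤ _ := by gcongr

lemma deriv_P (hP : FB P) (hζ : ‖ζ‖ = 1) (h1 : P ζ = 1) {z : ℂ} (hz : ‖z‖ ≤ 1) :
    deriv P z = qq P ζ z - (ζ - z) * deriv (qq P ζ) z := by
  have hq := (qq_an hP hζ z (by simpa using hz)).differentiableAt.hasDerivAt
  have h2 : HasDerivAt (fun z => 1 - (ζ - z) * qq P ζ z)
      (0 - ((0 - 1) * qq P ζ z + (ζ - z) * deriv (qq P ζ) z)) z :=
    (hasDerivAt_const z (1 : ℂ)).sub (((hasDerivAt_const z ζ).sub (hasDerivAt_id z)).mul hq)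
  have h3 : P = fun z => 1 - (ζ - z) * qq P ζ z := funext (qq_eq h1)
  rw [congrArg deriv h3] 
  rw [h2.deriv]
  ring

lemma deriv_QQ (hP : FB P) (hζ : ‖ζ‖ = 1) (h1 : P ζ = 1) {M s : ℝ} (hs : 0 ≤ s) (hsM : s * M < 1)
    (hM : ∀ z, ‖z‖ ≤ 1 → ‖qq P ζ z‖ ≤ M) {z : ℂ} (hz : ‖z‖ < 1) :
    deriv (QQ P ζ s) z =
      (1 + s) * (qq P ζ z) ^ 2 / (1 + s * ζ * qq P ζ z) ^ 2 * (NN P ζ z + s * ζ) := by
  have hne := den_ne hs hsM hζ (hM z hz.le)
  have hqne := qq_ne hP h1 hz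
  have hq := (qq_an hP hζ z (by simpa using hz.le)).differentiableAt.hasDerivAt
  have h2 : HasDerivAt (QQ P ζ s)
      (0 - (((0 * (ζ - z) + (1 + s) * (0 - 1)) * qq P ζ z + (1 + s) * (ζ - z) * deriv (qq P ζ) z) *
        (1 + s * ζ * qq P ζ z) - (1 + s) * (ζ - z) * qq P ζ z * (0 + s * ζ * deriv (qq P ζ) z)) /
        (1 + s * ζ * qq P ζ z) ^ 2) z :=
    (hasDerivAt_const z (1 : ℂ)).sub
      ((((hasDerivAt_const z ((1 : ℂ) + s)).mul ((hasDerivAt_const z ζ).sub (hasDerivAt_id z))).mul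
        hq).div ((hasDerivAt_const z (1 : ℂ)).add (hq.const_mul _)) hne)
  rw [h2.deriv, NN, deriv_P hP hζ h1 hz.le]
  field_simp
  ring

lemma NN_eq (hP : FB P) (hζ : ‖ζ‖ = 1) (h1 : P ζ = 1) {z : ℂ} (hz : ‖z‖ < 1) :
    NN P ζ z = (qq P ζ z)⁻¹ - (ζ - z) * VV P ζ z := by
  have hqne := qq_ne hP h1 hz
  rw [NN, VV, deriv_P hP hζ h1 hz.le]
  field_simp

lemma QQ_crit (hP : FB P) (hζ : ‖ζ‖ = 1) (h1 : P ζ = 1) {M s : ℝ} (hs : 0 ≤ s) (hsM : s * M < 1)
    (hM : ∀ z, ‖z‖ ≤ 1 → ‖qq P ζ z‖ ≤ M) {z : ℂ} (hz : ‖z‖ < 1) (hc : NN P ζ z + s * ζ = 0) :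
    QQ P ζ s z = 1 - (1 + s) * (VV P ζ z)⁻¹ := by
  have hne := den_ne hs hsM hζ (hM z hz.le)
  have hqne := qq_ne hP h1 hz
  have hsub : ζ - z ≠ 0 := by
    intro h
    rw [sub_eq_zero.1 h] at hζ
    linarith
  rw [NN, deriv_P hP hζ h1 hz.le] at hc
  have h2 : 1 + s * ζ * qq P ζ z = (ζ - z) * deriv (qq P ζ) z / qq P ζ z := by
    field_simp at hc ⊢
    linear_combination hc
  have h3 : deriv (qq P ζ) z ≠ 0 := by
    intro h
    rw [h, mul_zero, zero_div] at h2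
    exact hne h2
  unfold QQ
  rw [h2, VV]
  field_simp

lemma NN_an (hP : FB P) (hζ : ‖ζ‖ = 1) (h1 : P ζ = 1) {z : ℂ} (hz : ‖z‖ < 1) :
    AnalyticAt ℂ (NN P ζ) z := by
  have hz' : z ∈ closedBall (0 : ℂ) 1 := by simpa using hz.le
  exact (hP.an z hz').deriv.div ((qq_an hP hζ z hz').pow 2) (pow_ne_zero 2 (qq_ne hP h1 hz))

lemma VV_an (hP : FB P) (hζ : ‖ζ‖ = 1) (h1 : P ζ = 1) {z : ℂ} (hz : ‖z‖ < 1) :
    AnalyticAt ℂ (VV P ζ) z := by
  have hz' : z ∈ closedBall (0 : ℂ) 1 := by simpa using hz.le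
  exact (qq_an hP hζ z hz').deriv.div ((qq_an hP hζ z hz').pow 2) (pow_ne_zero 2 (qq_ne hP h1 hz))

lemma deriv_VV (hP : FB P) (hζ : ‖ζ‖ = 1) (h1 : P ζ = 1) {z : ℂ} (hz : ‖z‖ < 1) :
    deriv (VV P ζ) z = -(ζ - z)⁻¹ * deriv (NN P ζ) z := by
  have hsub : ζ - z ≠ 0 := by
    intro h
    rw [sub_eq_zero.1 h] at hζ
    linarith
  have hqne := qq_ne hP h1 hz
  have hz' : z ∈ closedBall (0 : ℂ) 1 := by simpa using hz.le
  have hq := (qq_an hP hζ z hz').differentiableAt.hasDerivAt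
  have hV := (VV_an hP hζ h1 hz).differentiableAt.hasDerivAt
  have h2 : HasDerivAt (fun z => (qq P ζ z)⁻¹ - (ζ - z) * VV P ζ z)
      (-deriv (qq P ζ) z / (qq P ζ z) ^ 2 - ((0 - 1) * VV P ζ z + (ζ - z) * deriv (VV P ζ) z)) z :=
    (hq.inv hqne).sub (((hasDerivAt_const z ζ).sub (hasDerivAt_id z)).mul hV)
  have h3 : NN P ζ =ᶠ[𝓝 z] fun z => (qq P ζ z)⁻¹ - (ζ - z) * VV P ζ z := by
    filter_upwards [isOpen_ball.mem_nhds (show z ∈ ball (0 : ℂ) 1 by simpa using hz)] with w hw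
    exact NN_eq hP hζ h1 (by simpa using hw)
  rw [h3.deriv_eq, h2.deriv, VV]
  field_simp
  ring

/-- Compactness: critical points of `Q_s`, `s → 0`. -/
lemma limit_point (hP : FB P) (hζ : ‖ζ‖ = 1) (h1 : P ζ = 1) {s : ℕ → ℝ} {z : ℕ → ℂ}
    (hs : Tendsto s atTop (𝓝 0)) (hz : ∀ n, ‖z n‖ < 1) (hc : ∀ n, NN P ζ (z n) = -(s n * ζ)) :
    ∃ p : ℂ, ‖p‖ < 1 ∧ deriv P p = 0 ∧ ∃ φ : ℕ → ℕ, StrictMono φ ∧ Tendsto (z ∘ φ) atTop (𝓝 p) := by
  obtain ⟨M, hM0, hM⟩ := exists_bound hP hζ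
  obtain ⟨p, hp, φ, hφ, hlim⟩ := (isCompact_closedBall (0 : ℂ) 1).tendsto_subseq
    (fun n => show z n ∈ closedBall (0 : ℂ) 1 by simpa using (hz n).le)
  have hp' : ‖p‖ ≤ 1 := by simpa using hp
  have h2 : ∀ n, ‖deriv P (z n)‖ ≤ |s n| * M ^ 2 := by
    intro n
    have h3 := hc n
    rw [NN, div_eq_iff (pow_ne_zero 2 (qq_ne hP h1 (hz n)))] at h3
    rw [h3, norm_mul, norm_neg, norm_mul, hζ, mul_one, norm_pow, Complex.norm_real, Real.norm_eq_abs]
    have := hM (z n) (hz n).le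
    gcongr
  have h3 : Tendsto (fun n => deriv P (z (φ n))) atTop (𝓝 (deriv P p)) :=
    ((hP.an p hp).deriv.continuousAt.tendsto).comp hlim
  have h4 : Tendsto (fun n => deriv P (z (φ n))) atTop (𝓝 0) := by
    refine squeeze_zero_norm (fun n => h2 (φ n)) ?_
    have h5 : Tendsto (fun n => |s (φ n)| * M ^ 2) atTop (𝓝 (|0| * M ^ 2)) :=
      ((hs.comp hφ.tendsto_atTop).abs).mul_const _
    simpa using h5
  have h5 : deriv P p = 0 := tendsto_nhds_unique h3 h4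
  refine ⟨p, lt_of_le_of_ne hp' fun h => deriv_ne_circle hP h h5, h5, φ, hφ, hlim⟩

lemma NN_zero {p : ℂ} (h : deriv P p = 0) : NN P ζ p = 0 := by rw [NN, h, zero_div]

lemma not_ev_zero {p : ℂ} (hζ : ‖ζ‖ = 1) {s : ℕ → ℝ} {z : ℕ → ℂ} (hs : ∀ n, 0 < s n)
    (hz : Tendsto z atTop (𝓝 p)) (hc : ∀ n, NN P ζ (z n) = -(s n * ζ)) :
    ¬ ∀ᶠ x in 𝓝 p, NN P ζ x = 0 := by
  intro h
  obtain ⟨n, hn⟩ := (hz.eventually h).exists
  rw [hc n, neg_eq_zero, mul_eq_zero] at hn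
  rcases hn with hn | hn
  · exact (hs n).ne' (by exact_mod_cast hn)
  · rw [hn, norm_zero] at hζ; exact zero_ne_one hζ

/-- (E2) -/
lemma ev_far (hP : FB P) (hζ : ‖ζ‖ = 1) (h1 : P ζ = 1) {ρ : ℝ}
    (hρ : ∀ z, ‖z‖ < 1 → deriv P z = 0 → ρ < ‖z‖) :
    ∀ᶠ s : ℝ in 𝓝[>] 0, ∀ z, ‖z‖ < 1 → NN P ζ z = -(s * ζ) → ρ < ‖z‖ := by
  by_contra hcon
  rw [not_eventually] at hcon
  obtain ⟨s, hs, hz⟩ := exists_seq_forall_of_frequently hcon
  push Not at hz
  choose z hz1 hz2 hz3 using hz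
  have hs0 : Tendsto s atTop (𝓝 0) := hs.mono_right nhdsWithin_le_nhds
  obtain ⟨p, hp, hp0, φ, hφ, hlim⟩ := limit_point hP hζ h1 hs0 hz1 hz2
  have h2 : ‖p‖ ≤ ρ := le_of_tendsto hlim.norm (Eventually.of_forall fun n => hz3 (φ n))
  exact absurd (hρ p hp hp0) (not_lt.2 h2)

/-- (E3) -/
lemma ev_simple (hP : FB P) (hζ : ‖ζ‖ = 1) (h1 : P ζ = 1) :
    ∀ᶠ s : ℝ in 𝓝[>] 0, ∀ z, ‖z‖ < 1 → NN P ζ z = -(s * ζ) → deriv (NN P ζ) z ≠ 0 := by
  by_contra hcon
  rw [not_eventually] at hcon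
  obtain ⟨s, hs, hz⟩ := exists_seq_forall_of_frequently (hcon.and_eventually self_mem_nhdsWithin)
  have hpos : ∀ n, 0 < s n := fun n => (hz n).2
  have hz' := fun n => (hz n).1
  push Not at hz'
  choose z hz1 hz2 hz3 using hz'
  have hs0 : Tendsto s atTop (𝓝 0) := hs.mono_right nhdsWithin_le_nhds
  obtain ⟨p, hp, hp0, φ, hφ, hlim⟩ := limit_point hP hζ h1 hs0 hz1 hz2
  have hne := not_ev_zero hζ (fun n => hpos (φ n)) hlim (fun n => hz2 (φ n))
  have hNp : NN P ζ p = 0 := NN_zero hp0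
  have hNan := NN_an hP hζ h1 hp
  rcases hNan.deriv.eventually_eq_zero_or_eventually_ne_zero with h2 | h2
  · apply hne
    obtain ⟨δ, hδ, hball⟩ := Metric.eventually_nhds_iff_ball.1 (h2.and hNan.eventually_analyticAt)
    filter_upwards [ball_mem_nhds p hδ] with x hx
    have h3 := (convex_ball p δ).norm_image_sub_le_of_norm_deriv_le (f := NN P ζ) (C := 0)
      (fun w hw => (hball w hw).2.differentiableAt)
      (fun w hw => by rw [(hball w hw).1, norm_zero]) (mem_ball_self hδ) hx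
    rw [hNp, zero_mul, sub_zero] at h3
    exact norm_le_zero_iff.1 h3
  · have h4 : ∀ n, z (φ n) ≠ p := by
      intro n h
      have h5 := hz2 (φ n)
      rw [h, hNp, eq_comm, neg_eq_zero, mul_eq_zero] at h5
      rcases h5 with h5 | h5
      · exact (hpos (φ n)).ne' (by exact_mod_cast h5)
      · rw [h5, norm_zero] at hζ; exact zero_ne_one hζ
    have h5 : Tendsto (z ∘ φ) atTop (𝓝[≠] p) :=
      tendsto_nhdsWithin_iff.2 ⟨hlim, Eventually.of_forall fun n => h4 n⟩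
    obtain ⟨n, hn⟩ := (h5.eventually h2).exists
    exact hn (hz3 (φ n))

/-- (E4) -/
lemma ev_distinct (hP : FB P) (hζ : ‖ζ‖ = 1) (h1 : P ζ = 1) :
    ∀ᶠ s : ℝ in 𝓝[>] 0, ∀ z w, ‖z‖ < 1 → ‖w‖ < 1 → NN P ζ z = -(s * ζ) → NN P ζ w = -(s * ζ) →
      VV P ζ z = VV P ζ w → z = w := by
  by_contra hcon
  rw [not_eventually] at hcon
  obtain ⟨s, hs, hz⟩ := exists_seq_forall_of_frequently (hcon.and_eventually self_mem_nhdsWithin)
  have hpos : ∀ n, 0 < s n := fun n => (hz n).2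
  have hz' := fun n => (hz n).1
  push Not at hz'
  choose z w hz1 hw1 hz2 hw2 hV hzw using hz'
  have hs0 : Tendsto s atTop (𝓝 0) := hs.mono_right nhdsWithin_le_nhds
  obtain ⟨p, hp, hp0, φ, hφ, hlim⟩ := limit_point hP hζ h1 hs0 hz1 hz2
  obtain ⟨p', hp', hp0', φ', hφ', hlim'⟩ := limit_point hP hζ h1 (hs0.comp hφ.tendsto_atTop)
    (fun n => hw1 (φ n)) (fun n => hw2 (φ n))
  -- the final sequences
  set a : ℕ → ℂ := fun n => z (φ (φ' n)) with ha
  set b : ℕ → ℂ := fun n => w (φ (φ' n)) with hb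
  have hla : Tendsto a atTop (𝓝 p) := hlim.comp hφ'.tendsto_atTop
  have hlb : Tendsto b atTop (𝓝 p') := hlim'
  have hNa : ∀ n, NN P ζ (a n) = -(s (φ (φ' n)) * ζ) := fun n => hz2 _
  have hNb : ∀ n, NN P ζ (b n) = -(s (φ (φ' n)) * ζ) := fun n => hw2 _
  have hVab : ∀ n, VV P ζ (a n) = VV P ζ (b n) := fun n => hV _
  have hN0 : ∀ n, NN P ζ (a n) ≠ 0 := by
    intro n h5
    rw [hNa, neg_eq_zero, mul_eq_zero] at h5
    rcases h5 with h5 | h5
    · exact (hpos _).ne' (by exact_mod_cast h5)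
    · rw [h5, norm_zero] at hζ; exact zero_ne_one hζ
  -- values at the limits
  have hVp : VV P ζ p = VV P ζ p' := by
    have h2 : Tendsto (fun n => VV P ζ (a n)) atTop (𝓝 (VV P ζ p)) :=
      (VV_an hP hζ h1 hp).continuousAt.tendsto.comp hla
    have h3 : Tendsto (fun n => VV P ζ (b n)) atTop (𝓝 (VV P ζ p')) :=
      (VV_an hP hζ h1 hp').continuousAt.tendsto.comp hlb
    exact tendsto_nhds_unique h2 (h3.congr fun n => (hVab n).symm)
  -- local comparison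
  have hloc : ∀ x : ℂ, ‖x‖ < 1 → deriv P x = 0 → (¬ ∀ᶠ y in 𝓝 x, NN P ζ y = 0) →
      ∃ Λ : ℂ → ℂ, AnalyticAt ℂ Λ x ∧ Λ x = -(ζ - x)⁻¹ ∧ deriv Λ x ≠ 0 ∧
        ∀ᶠ y in 𝓝 x, VV P ζ y - VV P ζ x = Λ y * NN P ζ y := by
    intro x hx hx0 hne
    have hsub : ζ - x ≠ 0 := by
      intro h
      rw [sub_eq_zero.1 h] at hζ
      linarith
    have hc : AnalyticAt ℂ (fun y => -(ζ - y)⁻¹) x :=
      ((analyticAt_const.sub analyticAt_id).inv hsub).neg
    refine local_lemma (c := fun y => -(ζ - y)⁻¹) (NN_an hP hζ h1 hx) (VV_an hP hζ h1 hx) hc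
      (NN_zero hx0) hne ?_ ?_
    · filter_upwards [isOpen_ball.mem_nhds (show x ∈ ball (0 : ℂ) 1 by simpa using hx)] with y hy
      exact deriv_VV hP hζ h1 (by simpa using hy)
    · have h2 : HasDerivAt (fun y => -(ζ - y)⁻¹) (-(-(0 - 1) / (ζ - x) ^ 2)) x :=
        (((hasDerivAt_const x ζ).sub (hasDerivAt_id x)).inv hsub).neg
      rw [h2.deriv]
      intro h3
      have h4 : (ζ - x) ^ 2 ≠ 0 := pow_ne_zero 2 hsub
      field_simp at h3
      norm_num at h3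
  have hne : ¬ ∀ᶠ x in 𝓝 p, NN P ζ x = 0 :=
    not_ev_zero hζ (fun n => hpos (φ (φ' n))) hla hNa
  have hne' : ¬ ∀ᶠ x in 𝓝 p', NN P ζ x = 0 :=
    not_ev_zero hζ (fun n => hpos (φ (φ' n))) hlb hNb
  obtain ⟨Λ, hΛ, hΛp, hΛ', hΛe⟩ := hloc p hp hp0 hne
  obtain ⟨Λ₂, hΛ₂, hΛp₂, hΛ₂', hΛe₂⟩ := hloc p' hp' hp0' hne'
  have hpp : p = p' := by
    have h2 : Tendsto (fun n => Λ (a n)) atTop (𝓝 (Λ p)) := hΛ.continuousAt.tendsto.comp hla
    have h3 : Tendsto (fun n => Λ₂ (b n)) atTop (𝓝 (Λ₂ p')) := hΛ₂.continuousAt.tendsto.comp hlb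
    have h4 : ∀ᶠ n in atTop, Λ₂ (b n) = Λ (a n) := by
      filter_upwards [hla.eventually hΛe, hlb.eventually hΛe₂] with n h5 h6
      rw [← hVab n, ← hVp, h5, hNb, ← hNa] at h6
      exact (mul_right_cancel₀ (hN0 n) h6).symm
    have h5 := tendsto_nhds_unique h2 (h3.congr' h4)
    rw [hΛp, hΛp₂, neg_inj] at h5
    have h6 := inv_injective h5
    linear_combination -h6
  subst hpp
  obtain ⟨u, hu, hinj⟩ := inj_near hΛ hΛ'
  obtain ⟨n, h5, h6, h7, h8⟩ := ((hla.eventually hΛe).and ((hlb.eventually hΛe).and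
    ((hla.eventually hu).and (hlb.eventually hu)))).exists
  rw [← hVab n, h5, hNb, ← hNa] at h6
  have h9 := mul_right_cancel₀ (hN0 n) h6
  exact hzw _ (hinj _ h7 _ h8 h9)

/-- The case `P ζ = 1`. -/
lemma pert_one (hP : FB P) (hζ : ‖ζ‖ = 1) (h1 : P ζ = 1) {ρ η : ℝ} (hη : 0 < η)
    (hρ : ∀ z, ‖z‖ < 1 → deriv P z = 0 → ρ < ‖z‖) : ∃ Q : ℂ → ℂ, FB Q ∧ Generic Q ∧
    (∀ z, ‖z‖ ≤ 1 → ‖Q z - P z‖ ≤ η) ∧ (∀ z, ‖z‖ < 1 → deriv Q z = 0 → ρ < ‖z‖) := by
  obtain ⟨M, hM0, hM⟩ := exists_bound hP hζ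
  have e1 : ∀ᶠ s : ℝ in 𝓝[>] 0, s * M < 1 / 2 := by
    have h2 : Tendsto (fun s : ℝ => s * M) (𝓝[>] 0) (𝓝 (0 * M)) :=
      (tendsto_id.mono_left nhdsWithin_le_nhds).mul_const M
    rw [zero_mul] at h2
    exact h2.eventually_lt_const (by norm_num)
  have e2 : ∀ᶠ s : ℝ in 𝓝[>] 0, s * (4 * M * (M + 1)) < η := by
    have h2 : Tendsto (fun s : ℝ => s * (4 * M * (M + 1))) (𝓝[>] 0) (𝓝 (0 * (4 * M * (M + 1)))) :=
      (tendsto_id.mono_left nhdsWithin_le_nhds).mul_const _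
    rw [zero_mul] at h2
    exact h2.eventually_lt_const hη
  obtain ⟨s, hs1, hs2, hs3, hs4, hs5, hs6⟩ := (e1.and (e2.and ((ev_far hP hζ h1 hρ).and
    ((ev_simple hP hζ h1).and ((ev_distinct hP hζ h1).and self_mem_nhdsWithin))))).exists
  have hs : 0 < s := hs6
  have hsM : s * M < 1 := by linarith
  have hcrit : ∀ z, ‖z‖ < 1 → deriv (QQ P ζ s) z = 0 → NN P ζ z + s * ζ = 0 := by
    intro z hz h0
    rw [deriv_QQ hP hζ h1 hs.le hsM hM hz] at h0
    refine (mul_eq_zero.1 h0).resolve_left ?_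
    refine div_ne_zero (mul_ne_zero ?_ (pow_ne_zero 2 (qq_ne hP h1 hz)))
      (pow_ne_zero 2 (den_ne hs.le hsM hζ (hM z hz.le)))
    intro h
    have h2 : ((1 + s : ℝ) : ℂ) = 0 := by push_cast; exact h
    have h3 : (1 + s : ℝ) = 0 := by exact_mod_cast h2
    linarith
  have h1s : (1 + (s : ℂ)) ≠ 0 := by
    intro h
    have h2 : ((1 + s : ℝ) : ℂ) = 0 := by push_cast; exact h
    have h3 : (1 + s : ℝ) = 0 := by exact_mod_cast h2
    linarith
  refine ⟨QQ P ζ s, FB_QQ hP hζ h1 hs.le hsM hM, ⟨?_, ?_⟩, ?_, ?_⟩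
  · intro z hz h0
    have hc := hcrit z hz h0
    set E : ℂ → ℂ := fun z => (1 + s) * (qq P ζ z) ^ 2 / (1 + s * ζ * qq P ζ z) ^ 2 with hE
    have hz' : z ∈ closedBall (0 : ℂ) 1 := by simpa using hz.le
    have hden := den_ne hs.le hsM hζ (hM z hz.le)
    have hEan : AnalyticAt ℂ E z := by
      have hq := qq_an hP hζ z hz'
      exact (analyticAt_const.mul (hq.pow 2)).div
        ((analyticAt_const.add (analyticAt_const.mul hq)).pow 2) (pow_ne_zero 2 hden)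
    have h2 : deriv (QQ P ζ s) =ᶠ[𝓝 z] fun y => E y * (NN P ζ y + s * ζ) := by
      filter_upwards [isOpen_ball.mem_nhds (show z ∈ ball (0 : ℂ) 1 by simpa using hz)] with y hy
      exact deriv_QQ hP hζ h1 hs.le hsM hM (by simpa using hy)
    have h3 : HasDerivAt (fun y => E y * (NN P ζ y + s * ζ))
        (deriv E z * (NN P ζ z + s * ζ) + E z * deriv (NN P ζ) z) z :=
      hEan.differentiableAt.hasDerivAt.mul
        ((NN_an hP hζ h1 hz).differentiableAt.hasDerivAt.add_const _)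
    rw [h2.deriv_eq, h3.deriv, hc, mul_zero, zero_add]
    refine mul_ne_zero (div_ne_zero (mul_ne_zero h1s (pow_ne_zero 2 (qq_ne hP h1 hz)))
      (pow_ne_zero 2 hden)) (hs4 z hz (by linear_combination hc))
  · intro z w hz hw h0 h0' hzw
    have hc := hcrit z hz h0
    have hc' := hcrit w hw h0'
    rw [QQ_crit hP hζ h1 hs.le hsM hM hz hc, QQ_crit hP hζ h1 hs.le hsM hM hw hc'] at hzw
    have h2 : (1 + (s : ℂ)) * (VV P ζ z)⁻¹ = (1 + (s : ℂ)) * (VV P ζ w)⁻¹ := by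
      linear_combination -hzw
    have h3 := inv_injective (mul_left_cancel₀ h1s h2)
    exact hs5 z w hz hw (by linear_combination hc) (by linear_combination hc') h3
  · intro z hz
    exact (close_QQ hζ h1 hs.le hs1.le hM hz).trans hs2.le
  · intro z hz h0
    have hc := hcrit z hz h0
    exact hs3 z hz (by linear_combination hc)

end

/-- Module E. -/
theorem t_pert : S_pert := by
  intro P ρ η hP _ hη hρ
  set l : ℂ := P 1 with hl
  have hl1 : ‖l‖ = 1 := hP.uni 1 (by simp)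
  have hl0 : l ≠ 0 := by
    intro h; rw [h, norm_zero] at hl1; exact zero_ne_one hl1
  have hP' : FB (fun z => l⁻¹ * P z) :=
    { an := fun z hz => analyticAt_const.mul (hP.an z hz)
      uni := fun z hz => by rw [norm_mul, norm_inv, hl1, hP.uni z hz]; norm_num
      zero := by rw [hP.zero, mul_zero] }
  have hd : ∀ (c : ℂ) (f : ℂ → ℂ) (z : ℂ), deriv (fun z => c * f z) z = c * deriv f z := fun c f z =>
    deriv_const_mul_field c
  obtain ⟨Q, hQ, hgen, hclose, hfar⟩ := pert_one (ζ := 1) hP' (by simp)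
    (show l⁻¹ * P 1 = 1 from inv_mul_cancel₀ hl0) hη (ρ := ρ) (fun z hz h0 => by
      rw [hd] at h0
      exact hρ z hz ((mul_eq_zero.1 h0).resolve_left (inv_ne_zero hl0)))
  have hdd : deriv (fun z => l * Q z) = fun z => l * deriv Q z := funext (hd l Q)
  refine ⟨fun z => l * Q z,
    { an := fun z hz => analyticAt_const.mul (hQ.an z hz)
      uni := fun z hz => by rw [norm_mul, hl1, hQ.uni z hz]; norm_num
      zero := by rw [hQ.zero, mul_zero] }, ⟨?_, ?_⟩, ?_, ?_⟩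
  · intro z hz h0
    rw [hd] at h0
    rw [hdd, hd]
    exact mul_ne_zero hl0 (hgen.1 z hz ((mul_eq_zero.1 h0).resolve_left hl0))
  · intro z w hz hw h0 h0' h
    rw [hd] at h0 h0'
    exact hgen.2 z w hz hw ((mul_eq_zero.1 h0).resolve_left hl0)
      ((mul_eq_zero.1 h0').resolve_left hl0) (mul_left_cancel₀ hl0 h)
  · intro z hz
    have h2 := hclose z hz
    have h3 : l * Q z - P z = l * (Q z - l⁻¹ * P z) := by
      field_simp
    rw [h3, norm_mul, hl1, one_mul]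
    exact h2
  · intro z hz h0
    rw [hd] at h0
    exact hfar z hz ((mul_eq_zero.1 h0).resolve_left hl0)

end Pool.Agent.H81.BP
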